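import Pool.Agent.Y56.BM.Th

set_option autoImplicit false

universe u v w

namespace Pool.Agent.Results.MP_77a645_al.FreeAlgebras

/-- A brachymorphism: a map between rings with `f (1 + a) = 1 + f a` and `f (a b) = f a f b`. -/
def Brachymorphism {R : Type*} {S : Type*} [Ring R] [Ring S] (f : R → S) : Prop :=
  (∀ a, f (1 + a) = 1 + f a) ∧ ∀ a b, f (a * b) = f a * f b

/-- **Additivity of brachymorphisms on free algebras, complete answer.**
Let `k` be any commutative ring, `X` any set and `k⟨X⟩` the free associative algebra.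

(A) If `X` has at least two elements, then for `a ∈ k⟨X⟩` the following are equivalent:
  (i) `f (a + b) = f a + f b` for every ring `S`, every brachymorphism `f : k⟨X⟩ → S` and every
      `b ∈ k⟨X⟩` (i.e. `(a, b)` is summable for every `b`);
  (ii) the same only for the rings `S = F[ε]` of dual numbers over fields `F`;
  (iii) `a` is the sum of a constant `c ∈ k` and a nilpotent element;
  (iv) all coefficients of `a` at nonempty words are nilpotent.

(B) `k⟨X⟩` is addable (every brachymorphism with domain `k⟨X⟩` is additive) if and only if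
`k` is the zero ring or `X` has at most one element.

(C) If `k` is not the zero ring and `x ≠ y` are two letters, then the pair `(x, y)` is not summable
in `k⟨X⟩`: there are a field `F` and a brachymorphism `f : k⟨X⟩ → F[ε]` with
`f (x + y) ≠ f x + f y`. -/
theorem result (k : Type u) [CommRing k] (X : Type v) :
    (Nontrivial X → ∀ a : FreeAlgebra k X,
      List.TFAE [
        ∀ (S : Type (max u w)) [Ring S] (f : FreeAlgebra k X → S), Brachymorphism f →
          ∀ b, f (a + b) = f a + f b,
        ∀ (F : Type u) [Field F] (f : FreeAlgebra k X → DualNumber F), Brachymorphism f →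
          ∀ b, f (a + b) = f a + f b,
        ∃ c : k, IsNilpotent (a - algebraMap k (FreeAlgebra k X) c),
        ∀ m : FreeMonoid X, m ≠ 1 → IsNilpotent
          ((FreeAlgebra.equivMonoidAlgebraFreeMonoid a :
            MonoidAlgebra k (FreeMonoid X)).coeff m)]) ∧
    ((∀ (S : Type (max u w)) [Ring S] (f : FreeAlgebra k X → S), Brachymorphism f →
        ∀ a b, f (a + b) = f a + f b) ↔ (Subsingleton k ∨ Subsingleton X)) ∧
    (Nontrivial k → ∀ x y : X, x ≠ y →
      ∃ (F : Type u) (_ : Field F) (f : FreeAlgebra k X → DualNumber F), Brachymorphism f ∧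
        f (FreeAlgebra.ι k x + FreeAlgebra.ι k y) ≠
          f (FreeAlgebra.ι k x) + f (FreeAlgebra.ι k y)) := by
  classical
  have ulift : ∀ (a : FreeAlgebra k X), (∀ (S : Type (max u w)) [Ring S]
      (f : FreeAlgebra k X → S), Brachymorphism f → ∀ b, f (a + b) = f a + f b) →
      ∀ (F : Type u) [Field F] (f : FreeAlgebra k X → DualNumber F), Brachymorphism f →
        ∀ b, f (a + b) = f a + f b := by
    intro a h F _ f hf b
    have := h (ULift.{max u w} (DualNumber F)) (fun a => ULift.up (f a))
      ⟨fun a => congrArg ULift.up (hf.1 a), fun a b => congrArg ULift.up (hf.2 a b)⟩ b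
    exact congrArg ULift.down this
  have main : Nontrivial X → ∀ a : FreeAlgebra k X,
      (∀ (F : Type u) [Field F] (f : FreeAlgebra k X → DualNumber F), Brachymorphism f →
        ∀ b, f (a + b) = f a + f b) →
      ∀ m : FreeMonoid X, m ≠ 1 → IsNilpotent
          ((FreeAlgebra.equivMonoidAlgebraFreeMonoid a :
            MonoidAlgebra k (FreeMonoid X)).coeff m) := by
    intro hX a h m hm
    by_contra hcon
    obtain ⟨F, hF, f, b, hf, hne⟩ := Pool.Agent.Y56.BM.Re.neg_main k X a m hm hcon
    exact hne (h F f hf b)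
  have letter : Nontrivial k → ∀ x y : X, x ≠ y →
      ∃ (F : Type u) (_ : Field F) (f : FreeAlgebra k X → DualNumber F), Brachymorphism f ∧
        f (FreeAlgebra.ι k x + FreeAlgebra.ι k y) ≠
          f (FreeAlgebra.ι k x) + f (FreeAlgebra.ι k y) := by
    intro hk x y hxy
    have hX : Nontrivial X := ⟨x, y, hxy⟩
    have h1 : ¬ IsNilpotent (Pool.Agent.Y56.BM.Re.coef (FreeAlgebra.ι k x) (FreeMonoid.of x)) := by
      have : Pool.Agent.Y56.BM.Re.coef (FreeAlgebra.ι k x) (FreeMonoid.of x) = 1 := by
        simp [Pool.Agent.Y56.BM.Re.coef, FreeAlgebra.equivMonoidAlgebraFreeMonoid]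
      rw [this]
      rintro ⟨n, hn⟩
      rw [one_pow] at hn
      exact one_ne_zero hn
    have h2 : FreeMonoid.of x ≠ 1 := by
      intro h
      have := congrArg FreeMonoid.length h
      simp at this
    obtain ⟨F, hF, f, b, hf, hne⟩ := Pool.Agent.Y56.BM.Re.neg_main k X _ _ h2 h1
    let g : FreeAlgebra k X →ₐ[k] FreeAlgebra k X :=
      FreeAlgebra.lift k fun z => if z = x then FreeAlgebra.ι k x else b
    have gx : g (FreeAlgebra.ι k x) = FreeAlgebra.ι k x := by
      change FreeAlgebra.lift k _ _ = _
      rw [FreeAlgebra.lift_ι_apply, if_pos rfl]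
    have gy : g (FreeAlgebra.ι k y) = b := by
      change FreeAlgebra.lift k _ _ = _
      rw [FreeAlgebra.lift_ι_apply, if_neg (Ne.symm hxy)]
    refine ⟨F, hF, fun a => f (g a), Pool.Agent.Y56.BM.Re.Brachy.comp_hom f hf g.toRingHom, ?_⟩
    change f (g _) ≠ f (g _) + f (g _)
    rw [map_add, gx, gy]
    exact hne
  refine ⟨?_, ?_, letter⟩
  · intro hX a
    tfae_have 1 → 2 := ulift a
    tfae_have 2 → 4 := main hX a
    tfae_have 4 → 3 := Pool.Agent.Y56.BM.Re.nil_main k X a
    tfae_have 3 → 1 := by
      rintro ⟨c, hc⟩ S _ f hf b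
      exact Pool.Agent.Y56.BM.Re.pos_main hf (algebraMap k _ c) (a - algebraMap k _ c) a b
        (Algebra.commutes c) hc (by abel)
    tfae_finish
  · constructor
    · intro h
      by_contra hcon
      rw [not_or, not_subsingleton_iff_nontrivial, not_subsingleton_iff_nontrivial] at hcon
      obtain ⟨hk, x, y, hxy⟩ := hcon
      obtain ⟨F, hF, f, hf, hne⟩ := letter hk x y hxy
      exact hne (ulift _ (fun S _ f hf b => h S f hf _ b) F f hf _)
    · rintro (hk | hX) S _ f hf a b
      · have : Subsingleton (FreeAlgebra k X) := Module.subsingleton k _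
        exact Pool.Agent.Y56.BM.Re.comm_add hf a b (Subsingleton.elim _ _)
      · exact Pool.Agent.Y56.BM.Re.comm_add hf a b
          (Pool.Agent.Y56.BM.Re.comm_of_subsingleton k X a b)

end Pool.Agent.Results.MP_77a645_al.FreeAlgebras
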